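import Pool.Agent.E8helper48.RR.Asm5
import Pool.Agent.E8helper48.RR.Ene2
import Pool.Agent.E8helper73.RR.Mono
import Pool.Agent.E8helper65.RR.Contr
import Pool.Agent.E8helper38.RR.Low
import Pool.Agent.E8helper85.RR.Lim
import Pool.Agent.E8helper91.RR.MM
import Pool.Agent.E8helper44.RR.Ene
import Pool.Agent.E8helper54.RR.Fin
import Pool.Agent.E8helper67.RR.Alt
import Pool.Agent.E8helper42.RR.Nalg
import Pool.Agent.E8helper40.RR.Nab
import Pool.Agent.E8helper71.RR.N2alg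
import Pool.Agent.E8helper65.RR.N2up
import Pool.Agent.E8helper79.RR.N2lo
import Pool.Agent.E8helper52.RR.N2
import Pool.Agent.E8helper52.RR.Up5
import Pool.Agent.E8helper73.RR.Lo5
import Pool.Agent.E8helper40.RR.N5

/-!
# Convergence to period-two solutions for `x_{n+1} = (al + x_{n-1})/(A + B x_n + x_{n-1} + D x_{n-2})`

`RR48.IsSol al A B D x`: `x` is a solution (index shifted by two, `x 0` is `x_{-2}`): the three initial
values are nonnegative, all denominators are positive, and the recurrence holds.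
`RR48.ConvTwo al A B D x`: `x n - y n → 0` for a solution `y` of the same equation with
`y (n + 2) = y n`.
(E1) is `al = A = B = 0`, (E2) `A = B = 0`, (E3) `al = B = 0`, (E4) `al = A = 0`, (E5) `B = 0`,
(E6) `A = 0`.
-/

set_option autoImplicit false

namespace Pool.Agent.Results.MP_548f00_an.SixRecurrencesH48

open Filter Topology RR48

theorem p_LIM : S_LIM := RR85.t_LIM
theorem p_NZ : S_NZ := RR85.t_NZ
theorem p_CON : S_CON := Pool.Agent.E8helper65.RR.t_CON
theorem p_LOW : S_LOW := Pool.Agent.E8helper38.RR.t_LOW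
theorem p_MONO : S_MONO := Pool.Agent.E8helper73.RR.t_MONO
theorem p_MM : S_MM := Pool.Agent.E8helper91.RR.t_MM
theorem p_ENE : S_ENE := Pool.Agent.E8helper44.RR.t_ENE
theorem p_FIN : S_FIN := Pool.Agent.E8helper54.RR.t_FIN
theorem p_ALT : S_ALT := Pool.Agent.E8helper67.RR.t_ALT
theorem p_NAB : S_NAB := Pool.Agent.E8helper40.RR.t_NAB Pool.Agent.E8helper42.RR.t_NALG
theorem p_N2 : S_N2 := Pool.Agent.E8helper52.RR.t_N2 Pool.Agent.E8helper71.RR.t_N2ALG
  Pool.Agent.E8helper65.RR.t_N2UP Pool.Agent.E8helper65.RR.t_N2UP0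
  Pool.Agent.E8helper79.RR.t_N2LO Pool.Agent.E8helper79.RR.t_N2LO0
theorem p_N5 : S_N5 := Pool.Agent.E8helper40.RR.t_N5 Pool.Agent.E8helper52.RR.t_UP5
  Pool.Agent.E8helper52.RR.t_UP50 Pool.Agent.E8helper73.RR.t_LO5 Pool.Agent.E8helper73.RR.t_LO50

/-- Every solution converges to a period-two solution in each of the following cases:
(a) `al = 0` (the equations (E1), (E3), (E4) for all parameters);
(b) `1 ≤ A` or `(1 - A) ^ 2 (B + D - 1) ≤ 4 al` (there are no prime period-two solutions);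
(c) `2 D (1 - A) ≤ 1 + A`;
(d) `A = 0` and `(B + D) ^ 2 ≤ B + D + 1`;
(e) `B = 0` and `al (1 + D) ≤ A` (part of (E5));
(f) `A = B = 0` and `4 D ^ 2 ≤ 8 D + 15` (the equation (E2) with `D ≤ 3.179…`);
(g) the positive equilibrium `z` satisfies the quadratic inequality, or, if `A = B = 0`, the cubic
inequality;
(h) the solution has three consecutive terms which alternate strictly around the positive
equilibrium;
(i) `(2 D + 1) s ^ 2 < 2 s + al` for all `s` in `(0, 1 - A)` with `al ≤ (B + D - 1) s (1 - A - s)`,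
that is, up to the larger term of the prime period-two solution. -/
theorem result (al A B D : ℝ) (hal : 0 ≤ al) (hA : 0 ≤ A) (hB : 0 ≤ B) (hD : 0 < D)
    (x : ℕ → ℝ) (hx : IsSol al A B D x)
    (hc : al = 0 ∨
      (1 ≤ A ∨ (1 - A) ^ 2 * (B + D - 1) ≤ 4 * al) ∨
      2 * D * (1 - A) ≤ 1 + A ∨
      (A = 0 ∧ (B + D) ^ 2 ≤ B + D + 1) ∨
      (B = 0 ∧ al * (1 + D) ≤ A) ∨
      (A = 0 ∧ B = 0 ∧ 4 * D ^ 2 ≤ 8 * D + 15) ∨
      (∃ z : ℝ, 0 < z ∧ z * (A + (B + D + 1) * z) = al + z ∧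
        (0 ≤ (2 * (B + D) + 1) * z ^ 2 + ((2 + (B + D)) * A - (B + D)) * z + A ^ 2 ∨
          (A = 0 ∧ B = 0 ∧
            0 ≤ (1 + D) * (2 * D - 1) * z ^ 3 + (3 - D ^ 2) * z ^ 2 - 3 * z + 1))) ∨
      (∃ z : ℝ, 0 < z ∧ z * (A + (B + D + 1) * z) = al + z ∧
        ∃ n, (z < x n ∧ x (n + 1) < z ∧ z < x (n + 2)) ∨
          (x n < z ∧ z < x (n + 1) ∧ x (n + 2) < z)) ∨
      (∀ s : ℝ, 0 < s → s < 1 - A → al ≤ (B + D - 1) * (s * (1 - A - s)) →
        (2 * D + 1) * s ^ 2 < 2 * s + al)) :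
    ConvTwo al A B D x := by
  rcases hal.eq_or_lt with h0 | hal'
  · subst h0
    exact conv_zero p_LIM p_NZ p_CON p_LOW hA hB hD hx
  rcases hc with h0 | hc | hc | ⟨rfl, hc⟩ | ⟨rfl, hc⟩ | ⟨rfl, rfl, hc⟩ |
    ⟨z, hz, hze, hc | ⟨rfl, rfl, hc⟩⟩ | ⟨z, hz, hze, n, hn⟩ | hc
  · exact absurd h0 hal'.ne'
  · refine (conv_mono p_LIM p_MONO hal' hA hB hD (fun hA1 => ?_) hx).1
    rcases hc with hc | hc
    · exact absurd hA1 (not_lt.2 hc)
    · exact hc
  · exact conv_energy p_LIM p_MM p_ENE p_FIN hal' hA hB hD hc hx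
  · exact conv_golden p_LIM p_MONO p_ALT p_NAB hal' hB hD hc hx
  · exact conv_five p_LIM p_MONO p_ALT p_N5 hal' hA hD hc hx
  · exact conv_small p_LIM p_MONO p_ALT p_N2 hal' hD hc hx
  · exact conv_quad p_LIM p_MONO p_ALT p_NAB hal' hA hB hD hx hz hze hc
  · exact conv_cubic p_LIM p_MONO p_ALT p_N2 hal' hD hx hz hze hc
  · by_cases hm : A < 1 → (1 - A) ^ 2 * (B + D - 1) ≤ 4 * al
    · exact (conv_mono p_LIM p_MONO hal' hA hB hD hm hx).1
    · push Not at hm
      exact prime_two (alt_both p_LIM p_ALT hal' hA hB hD hm.1 hm.2 hx hz hze hn)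
  · exact conv_energy2 p_LIM p_FIN hal' hA hB hD hc hx

end Pool.Agent.Results.MP_548f00_an.SixRecurrencesH48
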